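import Pool.Agent.W717.UR.Stm

set_option autoImplicit false

namespace Pool.Agent.W59.UR

open Pool.Agent.W717.UR

theorem bb_spaced (G N : ℕ → ℕ) (e : ℕ → ℕ → ℤ) (k i : ℕ) (r : ℤ) (hi : i < G k) (hr : 0 ≤ r)
    (hr' : r < (hh G N k : ℤ) + 1) :
    bb G N e (k + 1) (i * ((hh G N k : ℤ) + 1) + r) = bb G N e k r := by
  have hL : (i * ((hh G N k : ℤ) + 1) + r) < ((G k * (hh G N k + 1) : ℕ) : ℤ) := by
    push_cast
    have h1 : (i : ℤ) + 1 ≤ G k := by exact_mod_cast hi
    have h2 : (0 : ℤ) ≤ (hh G N k : ℤ) + 1 := by positivity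
    nlinarith
  rw [bb, if_pos ⟨by positivity, hL⟩]
  congr 1
  push_cast
  rw [add_comm, Int.add_mul_emod_self_right]
  exact Int.emod_eq_of_lt hr hr'

theorem bb_signed (G N : ℕ → ℕ) (e : ℕ → ℕ → ℤ) (k q : ℕ) (r : ℤ) (hq : q < N k) (hr : 0 ≤ r)
    (hr' : r < (hh G N k : ℤ)) :
    bb G N e (k + 1) (G k * ((hh G N k : ℤ) + 1) + q * (hh G N k : ℤ) + r) =
      e k q * bb G N e k r := by
  have hh0 : (0 : ℤ) < hh G N k := by omega
  have h1 : (q : ℤ) + 1 ≤ N k := by exact_mod_cast hq
  have h2 : (0 : ℤ) ≤ (q : ℤ) * hh G N k := by positivity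
  have hc : ((G k * (hh G N k + 1) : ℕ) : ℤ) = G k * ((hh G N k : ℤ) + 1) := by push_cast; ring
  rw [bb, if_neg, if_pos]
  · rw [hc, show (G k * ((hh G N k : ℤ) + 1) + q * (hh G N k : ℤ) + r -
      G k * ((hh G N k : ℤ) + 1)) = r + q * (hh G N k : ℤ) by ring]
    rw [Int.add_mul_emod_self_right, Int.emod_eq_of_lt hr hr',
      Int.add_mul_ediv_right _ _ hh0.ne', Int.ediv_eq_zero_of_lt hr hr', zero_add, Int.toNat_natCast]
  · rw [hc]
    refine ⟨by linarith, ?_⟩
    rw [hh]
    push_cast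
    nlinarith
  · rw [hc]
    rintro ⟨_, h⟩
    linarith

theorem t_DESC (hB : S_BASIC) : S_DESC := by
  intro G N e hP y k n hBP
  obtain ⟨hB1, -, hB3⟩ := hB G N e hP
  obtain ⟨u', v', s1, s2, hun, hnv, hv, hs1, hs2, hA, hB'⟩ := hBP
  have hh1 : 1 ≤ hh G N k := by
    have := (hB1 k).2.1
    omega
  have hG : 3 ≤ G k := by
    have := hP.hG k
    omega
  obtain ⟨q0, hq0, -⟩ := hP.hneg k
  have hN : 1 ≤ N k := by omega
  set h : ℤ := (hh G N k : ℤ) with hh_def
  have hpos : 1 ≤ h := by rw [hh_def]; exact_mod_cast hh1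
  have hk1 : (hh G N (k + 1) : ℤ) = G k * (h + 1) + N k * h := by
    rw [hh]; push_cast; ring
  have hGz : (3 : ℤ) ≤ G k := by exact_mod_cast hG
  have hNz : (1 : ℤ) ≤ N k := by exact_mod_cast hN
  rw [hk1] at hv hA hB'
  have hbh : bb G N e k h = 0 := hB3 k h (Or.inr le_rfl)
  -- blocks in the two parts
  have F1 : ∀ (i : ℕ) (r : ℤ), i < G k → 0 ≤ r → r < h + 1 →
      y (u' + (i * (h + 1) + r)) = s1 * bb G N e k r := by
    intro i r hi hr hr'
    rw [hA]
    · rw [bb_spaced G N e k i r hi hr hr']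
    · positivity
    · have h1 : (i : ℤ) + 1 ≤ G k := by exact_mod_cast hi
      nlinarith
  have F2 : ∀ (q : ℕ) (r : ℤ), q < N k → 0 ≤ r → r < h →
      y (u' + (G k * (h + 1) + q * h + r)) = s1 * e k q * bb G N e k r := by
    intro q r hq hr hr'
    rw [hA]
    · rw [bb_signed G N e k q r hq hr hr']; ring
    · positivity
    · have h1 : (q : ℤ) + 1 ≤ N k := by exact_mod_cast hq
      nlinarith
  have F3 : ∀ r : ℤ, 0 ≤ r → r < h → y (v' + r) = s2 * bb G N e k r := by
    intro r hr hr'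
    rw [hB' r hr (by nlinarith)]
    have := bb_spaced G N e k 0 r (by omega) hr (by omega)
    rw [← this]; simp
  have hsign : ∀ q, (s1 * e k q = 1 ∨ s1 * e k q = -1) := by
    intro q
    rcases hs1 with h | h <;> rcases hP.he k q with h' | h' <;> rw [h, h'] <;> norm_num
  rcases lt_or_ge (n - u') (G k * (h + 1)) with hc | hc
  · -- spaced part
    obtain ⟨i, hi⟩ : ∃ i : ℕ, (i : ℤ) = (n - u') / (h + 1) :=
      ⟨((n - u') / (h + 1)).toNat, Int.toNat_of_nonneg (Int.ediv_nonneg (by omega) (by omega))⟩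
    have hdm := Int.emod_add_mul_ediv (n - u') (h + 1)
    have hm0 := Int.emod_nonneg (n - u') (show h + 1 ≠ 0 by omega)
    have hm1 := Int.emod_lt_of_pos (n - u') (show 0 < h + 1 by omega)
    rw [← hi] at hdm
    have hiG : i < G k := by
      by_contra hcon
      have : (G k : ℤ) ≤ i := by exact_mod_cast not_lt.1 hcon
      nlinarith
    refine ⟨u' + i * (h + 1), u' + i * (h + 1) + h + 1, s1, s1, by nlinarith, by nlinarith,
      Or.inr ⟨rfl, ?_⟩, hs1, hs1, ?_, ?_⟩
    · rw [show u' + (i : ℤ) * (h + 1) + h = u' + (i * (h + 1) + h) by ring,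
        F1 i h hiG (by omega) (by omega), hbh, mul_zero]
    · intro r hr hr'
      rw [show u' + (i : ℤ) * (h + 1) + r = u' + (i * (h + 1) + r) by ring,
        F1 i r hiG hr (by omega)]
    · intro r hr hr'
      rcases lt_or_ge (i + 1) (G k) with h1 | h1
      · rw [show u' + (i : ℤ) * (h + 1) + h + 1 + r = u' + (((i + 1 : ℕ) : ℤ) * (h + 1) + r) by
          push_cast; ring, F1 (i + 1) r h1 hr (by omega)]
      · have h2 : i + 1 = G k := by omega
        have h3 : (i : ℤ) + 1 = G k := by exact_mod_cast h2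
        rw [show u' + (i : ℤ) * (h + 1) + h + 1 + r =
          u' + ((G k : ℤ) * (h + 1) + ((0 : ℕ) : ℤ) * h + r) by rw [← h3]; push_cast; ring,
          F2 0 r (by omega) hr hr', hP.hone k 0 (Nat.zero_le _), mul_one]
  · -- signed part; the last signed block also serves the spacer
    have last : (G k : ℤ) * (h + 1) + (N k - 1) * h ≤ n - u' → BP (hh G N) (bb G N e) y k n := by
      intro hlast
      refine ⟨u' + (G k * (h + 1) + (N k - 1) * h), v', s1 * e k (N k - 1), s2, by linarith, hnv,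
        ?_, hsign _, hs2, ?_, F3⟩
      · rcases hv with hv | ⟨hv, hv0⟩
        · left
          rw [hv]; ring
        · right
          refine ⟨by rw [hv]; ring, ?_⟩
          rw [← hv0]
          congr 1
          ring
      · intro r hr hr'
        have := F2 (N k - 1) r (by omega) hr hr'
        rw [Nat.cast_sub hN] at this
        rw [← this]
        congr 1
        push_cast
        ring
    by_cases hlast : (G k : ℤ) * (h + 1) + (N k - 1) * h ≤ n - u'
    · exact last hlast
    · push Not at hlast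
      obtain ⟨q, hq⟩ : ∃ q : ℕ, (q : ℤ) = (n - u' - G k * (h + 1)) / h :=
        ⟨((n - u' - G k * (h + 1)) / h).toNat,
          Int.toNat_of_nonneg (Int.ediv_nonneg (by omega) (by omega))⟩
      have hdm := Int.emod_add_mul_ediv (n - u' - G k * (h + 1)) h
      have hm0 := Int.emod_nonneg (n - u' - G k * (h + 1)) (show h ≠ 0 by omega)
      have hm1 := Int.emod_lt_of_pos (n - u' - G k * (h + 1)) (show 0 < h by omega)
      rw [← hq] at hdm
      have hqN : q + 1 < N k := by
        by_contra hcon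
        have h3 : N k ≤ q + 1 := not_lt.1 hcon
        have : (N k : ℤ) ≤ q + 1 := by exact_mod_cast h3
        nlinarith
      refine ⟨u' + (G k * (h + 1) + q * h), u' + (G k * (h + 1) + q * h) + h,
        s1 * e k q, s1 * e k (q + 1), by linarith, by linarith,
        Or.inl rfl, hsign _, hsign _, ?_, ?_⟩
      · intro r hr hr'
        rw [← F2 q r (by omega) hr hr']
        congr 1
        ring
      · intro r hr hr'
        rw [← F2 (q + 1) r hqN hr hr']
        congr 1
        push_cast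
        ring

end Pool.Agent.W59.UR
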