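import Pool.Agent.W717.UR.Stm

set_option autoImplicit false

namespace Pool.Agent.W59.UR

open Pool.Agent.W717.UR

theorem t_PICK : S_PICK := by
  intro Y hY0 hM x hx
  unfold MeetP at hM
  choose T hT N hN using hM x hx
  let st : ℕ → ℤ × ℕ := fun s => Nat.rec (0, 0) (fun s p =>
    (T p.1 p.2 (Nat.unpair s).1 (Nat.unpair s).2,
      p.2 + (Nat.unpair s).1 + N p.1 p.2 (Nat.unpair s).1 (Nat.unpair s).2 +
        (Nat.unpair s).2 + 1)) s
  have hst0 : st 0 = (0, 0) := rfl
  have hst : ∀ s, st (s + 1) = (T (st s).1 (st s).2 (Nat.unpair s).1 (Nat.unpair s).2,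
      (st s).2 + (Nat.unpair s).1 + N (st s).1 (st s).2 (Nat.unpair s).1 (Nat.unpair s).2 +
        (Nat.unpair s).2 + 1) := fun s => rfl
  generalize st = st at hst0 hst
  have hl : ∀ s, s ≤ (st s).2 := by
    intro s
    induction s with
    | zero => exact Nat.zero_le _
    | succ s ih => rw [hst]; simp only; omega
  have hstep : ∀ s (i : ℤ), |i| ≤ ((st s).2 : ℤ) → Y ((st (s + 1)).1 + i) = Y ((st s).1 + i) := by
    intro s i hi
    rw [hst]
    exact hT _ _ _ _ i hi
  have hmono : ∀ s, (st s).2 ≤ (st (s + 1)).2 := by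
    intro s; rw [hst s]; simp only; omega
  have hmono' : Monotone (fun s => (st s).2) := monotone_nat_of_le_succ hmono
  have hfar : ∀ s d (i : ℤ), |i| ≤ ((st s).2 : ℤ) → Y ((st (s + d)).1 + i) = Y ((st s).1 + i) := by
    intro s d i hi
    induction d with
    | zero => rfl
    | succ d ih =>
      rw [← ih]
      apply hstep
      refine hi.trans ?_
      have := hmono' (Nat.le_add_right s d)
      exact_mod_cast this
  let y : ℤ → ℤ := fun i => Y ((st i.natAbs).1 + i)
  have hy : ∀ s (i : ℤ), |i| ≤ ((st s).2 : ℤ) → y i = Y ((st s).1 + i) := by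
    intro s i hi
    show Y ((st i.natAbs).1 + i) = _
    rcases le_total i.natAbs s with h | h
    · obtain ⟨d, rfl⟩ := Nat.exists_eq_add_of_le h
      rw [hfar]
      rw [Int.abs_eq_natAbs]
      exact_mod_cast hl _
    · obtain ⟨d, hd⟩ := Nat.exists_eq_add_of_le h
      rw [hd, hfar _ _ _ hi]
  refine ⟨y, ?_, ?_, ?_⟩
  · have := hy 0 0 (by simp)
    rw [this, hst0]; simpa using hY0
  · intro l
    refine ⟨(st l).1, fun i hi => hy l i (hi.trans ?_)⟩
    exact_mod_cast hl l
  · intro m j
    set s := Nat.pair m j with hs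
    have h1 : (Nat.unpair s).1 = m := by rw [hs]; simp
    have h2 : (Nat.unpair s).2 = j := by rw [hs]; simp
    refine ⟨N (st s).1 (st s).2 m j, fun i hi => ?_⟩
    have hst' := hst s
    rw [h1, h2] at hst'
    rw [hy (s + 1)]
    · have := hN (st s).1 (st s).2 m j i hi
      rw [← this, hst']
      simp only
      congr 1
      ring
    · rw [hst']
      simp only
      rw [abs_of_nonneg (by positivity)]
      push_cast
      have : (i : ℤ) < j := by exact_mod_cast hi
      have h0 : (0 : ℤ) ≤ ((st s).2 : ℤ) := by positivity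
      linarith

end Pool.Agent.W59.UR
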