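import Pool.Agent.W717.UR.Stm

set_option autoImplicit false

namespace Pool.Agent.W59.UR

open Pool.Agent.W717.UR

theorem rad_level (y : ℤ → ℤ) (x : ℕ → ℤ) (hA : AperP y) (hM : MeetsP y x) (i : ℕ) :
    ∃ R0 : ℕ, ∀ R, R0 ≤ R →
      (∀ a ∈ Ret y R, ∀ a' ∈ Ret y R, a ≠ a' → (2 : ℤ) ^ (i + 5) ≤ |a - a'|) ∧
      (∀ m j : ℕ, m ≤ i + 1 → j ≤ i → ∃ n : ℕ, n + j + m ≤ R ∧
        ∀ i' : ℕ, i' < j → y (m + n + i') = x (n + i')) := by
  unfold AperP at hA
  unfold MeetsP at hM
  choose! f hf using hA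
  choose g hg using hM
  refine ⟨(Finset.range (2 ^ (i + 5))).sup f +
    (Finset.range (i + 2) ×ˢ Finset.range (i + 1)).sup (fun p => g p.1 p.2 + p.2 + p.1),
    fun R hR => ⟨?_, ?_⟩⟩
  · have key : ∀ a ∈ Ret y R, ∀ a' ∈ Ret y R, a < a' → (2 : ℤ) ^ (i + 5) ≤ a' - a := by
      intro a ha a' ha' h
      by_contra hlt
      push Not at hlt
      obtain ⟨d, hd⟩ : ∃ d : ℕ, (d : ℤ) = a' - a :=
        ⟨(a' - a).toNat, Int.toNat_of_nonneg (by omega)⟩
      have hd1 : 1 ≤ d := by omega
      have hd2 : d < 2 ^ (i + 5) := by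
        rw [← hd] at hlt
        exact_mod_cast hlt
      have hfd : f d ≤ R := by
        have := Finset.le_sup (f := f) (Finset.mem_range.2 hd2)
        omega
      refine hf d hd1 a ?_
      intro j hj
      have hj' : |j| ≤ (R : ℤ) := hj.trans (by exact_mod_cast hfd)
      rw [ha j hj', hd, show a + (a' - a) + j = a' + j by ring, ha' j hj']
    intro a ha a' ha' hne
    rcases lt_or_gt_of_ne hne with h | h
    · have := key a ha a' ha' h
      rw [abs_sub_comm]
      exact this.trans (le_abs_self _)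
    · have := key a' ha' a ha h
      exact this.trans (le_abs_self _)
  · intro m j hm hj
    refine ⟨g m j, ?_, hg m j⟩
    have : ((m, j) : ℕ × ℕ) ∈ Finset.range (i + 2) ×ˢ Finset.range (i + 1) := by
      simp only [Finset.mem_product, Finset.mem_range]; omega
    have := Finset.le_sup (f := fun p : ℕ × ℕ => g p.1 p.2 + p.2 + p.1) this
    simp only at this
    omega

/-- the radii -/
def radSeq (R0 : ℕ → ℕ) : ℕ → ℕ
  | 0 => R0 0
  | i + 1 => max (R0 (i + 1)) (2 * radSeq R0 i + 100 * (i + 2))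

theorem t_RAD : S_RAD := by
  intro y x hA hM
  choose R0 hR0 using rad_level y x hA hM
  have hle : ∀ i, R0 i ≤ radSeq R0 i := by
    intro i
    cases i with
    | zero => exact le_refl _
    | succ i => exact le_max_left _ _
  exact ⟨radSeq R0, fun i => le_max_right _ _, fun i => (hR0 i _ (hle i)).1,
    fun i => (hR0 i _ (hle i)).2⟩

end Pool.Agent.W59.UR
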